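import Pool.Agent.Helper89.Vol5.Goals

/-!
Project V58 (MP_cd13d2_co), packet GEN (port of `Pool.Agent.Helper20.Vol4.GEN`).
-/

set_option autoImplicit false

namespace Pool.Agent.Helper90.Vol5.PkGEN

open MeasureTheory Set Pool.Agent.Helper86.Poly Pool.Agent.Helper89.Vol5

theorem pl_val (s : Fin 8 → ℝ) (h : s ∈ PLa ∨ s ∈ PLb) : (∀ i, s i = 1 ∨ s i = -1) ∧ s 0 = 1 := by
  rcases h with h | h
  · simp only [PLa, List.mem_cons, List.not_mem_nil, or_false] at h
    rcases h with h | h | h | h | h | h | h | h <;> subst h <;>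
      refine ⟨fun i => ?_, by simp⟩ <;> fin_cases i <;> simp
  · simp only [PLb, List.mem_cons, List.not_mem_nil, or_false] at h
    rcases h with h | h | h | h | h | h | h | h <;> subst h <;>
      refine ⟨fun i => ?_, by simp⟩ <;> fin_cases i <;> simp

theorem thm (h1 : G_D1) (h2 : G_D2) (h3 : G_D3) (h5 : G_D5) (hT : G_CAN) (hC : G_COV2) :
    G_GEN := by
  intro x hgen
  have anti : ∀ i j, Dt x i j = -Dt x j i := (h1 x).1
  have diag : ∀ i, Dt x i i = 0 := fun i => by
    have := anti i i
    linarith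
  obtain ⟨σ, s, hPL, hpos⟩ := hT (Dt x) anti hgen (h2 x)
  obtain ⟨hs, s0⟩ := pl_val s hPL
  obtain ⟨c, hcdef⟩ : ∃ c : ℝ, c = ((Equiv.Perm.sign σ : ℤ) : ℝ) := ⟨_, rfl⟩
  have hc : c = 1 ∨ c = -1 := by
    rcases Int.units_eq_one_or (Equiv.Perm.sign σ) with h | h
    · left
      rw [hcdef, h]
      norm_num
    · right
      rw [hcdef, h]
      norm_num
  have hcc : c * c = 1 := by
    rcases hc with h | h <;> rw [h] <;> norm_num
  have key : ∀ m n, c * Dt (x ∘ σ) m n = Dt x (σ m) (σ n) := by
    intro m n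
    rw [h3 x σ m n, ← hcdef, ← mul_assoc, hcc, one_mul]
  have r0 : ∀ m : Fin 8, m ≠ 0 → 0 < s m * Dt x (σ 0) (σ m) := by
    intro m hm
    have := hpos 0 m (Fin.pos_of_ne_zero hm)
    rw [s0] at this
    linarith
  have hcov := hC x (Dt x) (σ 0) anti hgen (h1 x).2.1 (h1 x).2.2
  refine ⟨σ, c, s, ⟨hc, hPL⟩, ?_⟩
  -- the real double sum
  have hreal : (∑ i, ∑ j, if 0 < Dt x (σ 0) i ∧ 0 < Dt x j (σ 0) ∧ 0 < Dt x i j then
      Dt x i j else 0) ≤ T (x ∘ σ) c s := by
    unfold T
    rw [← Equiv.sum_comp σ]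
    refine Finset.sum_le_sum fun m _ => ?_
    rw [← Equiv.sum_comp σ]
    refine Finset.sum_le_sum fun n _ => ?_
    by_cases h : 0 < Dt x (σ 0) (σ m) ∧ 0 < Dt x (σ n) (σ 0) ∧ 0 < Dt x (σ m) (σ n)
    · rw [if_pos h]
      obtain ⟨g2, g3, g4⟩ := h
      have hm0 : m ≠ 0 := by
        intro h
        rw [h, diag] at g2
        exact lt_irrefl _ g2
      have hn0 : n ≠ 0 := by
        intro h
        rw [h, diag] at g3
        exact lt_irrefl _ g3
      have sm : s m = 1 := by
        rcases hs m with h | h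
        · exact h
        · have := r0 m hm0
          rw [h] at this
          linarith
      have sn : s n = -1 := by
        rcases hs n with h | h
        · have := r0 n hn0
          rw [h] at this
          rw [anti] at g3
          linarith
        · exact h
      have hnm : n < m := by
        rcases lt_trichotomy n m with h | h | h
        · exact h
        · rw [h, diag] at g4
          exact absurd g4 (lt_irrefl _)
        · have := hpos m n h
          rw [sm, sn] at this
          linarith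
      have h1n : (1 : Fin 8) ≤ n := by
        have a0 : n.val ≠ 0 := fun h => hn0 (Fin.ext h)
        have : (1 : Fin 8).val ≤ n.val := by
          have : (1 : Fin 8).val = 1 := rfl
          omega
        exact this
      rw [if_pos ⟨hnm, h1n, sm, sn⟩, key]
    · rw [if_neg h]
      split_ifs with h'
      · obtain ⟨q1, q2, q3, q4⟩ := h'
        rw [key]
        have := hpos n m q1
        rw [q3, q4, anti] at this
        linarith
      · exact le_refl _
  -- the measure side
  have hterm : ∀ i j, (120 : ENNReal) * (if 0 < Dt x (σ 0) i ∧ 0 < Dt x j (σ 0) ∧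
      0 < Dt x i j then volume (convexHull ℝ (x '' {k | k ≠ i ∧ k ≠ j})) else 0) =
      ENNReal.ofReal (if 0 < Dt x (σ 0) i ∧ 0 < Dt x j (σ 0) ∧ 0 < Dt x i j then
        Dt x i j else 0) := by
    intro i j
    by_cases h : 0 < Dt x (σ 0) i ∧ 0 < Dt x j (σ 0) ∧ 0 < Dt x i j
    · rw [if_pos h, if_pos h]
      have hij : i ≠ j := by
        intro e
        have := h.2.2
        rw [e, diag] at this
        exact lt_irrefl _ this
      rw [h5 x i j hij, abs_of_pos h.2.2]
    · rw [if_neg h, if_neg h]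
      simp
  have hnn : ∀ i j, 0 ≤ (if 0 < Dt x (σ 0) i ∧ 0 < Dt x j (σ 0) ∧ 0 < Dt x i j then
        Dt x i j else 0) := by
    intro i j
    split_ifs with h
    · exact h.2.2.le
    · exact le_refl _
  calc 120 * volume (convexHull ℝ (range x))
      ≤ 120 * ∑ i, ∑ j, (if 0 < Dt x (σ 0) i ∧ 0 < Dt x j (σ 0) ∧ 0 < Dt x i j then
          volume (convexHull ℝ (x '' {k | k ≠ i ∧ k ≠ j})) else 0) := by
        gcongr
    _ = ∑ i, ∑ j, ENNReal.ofReal (if 0 < Dt x (σ 0) i ∧ 0 < Dt x j (σ 0) ∧
          0 < Dt x i j then Dt x i j else 0) := by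
        rw [Finset.mul_sum]
        refine Finset.sum_congr rfl fun i _ => ?_
        rw [Finset.mul_sum]
        exact Finset.sum_congr rfl fun j _ => hterm i j
    _ = ENNReal.ofReal (∑ i, ∑ j, if 0 < Dt x (σ 0) i ∧ 0 < Dt x j (σ 0) ∧
          0 < Dt x i j then Dt x i j else 0) := by
        rw [ENNReal.ofReal_sum_of_nonneg fun i _ => Finset.sum_nonneg fun j _ => hnn i j]
        refine Finset.sum_congr rfl fun i _ => ?_
        rw [ENNReal.ofReal_sum_of_nonneg fun j _ => hnn i j]
    _ ≤ ENNReal.ofReal (T (x ∘ σ) c s) := ENNReal.ofReal_le_ofReal hreal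

end Pool.Agent.Helper90.Vol5.PkGEN
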